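import Pool.Agent.W458.FJ.Stm

/-!
Project FJ (helper458): part B1.
-/

set_option autoImplicit false

namespace Pool.Agent.W736.FJ.B1

open Pool.Agent.W458.FJ

theorem split {ι : Type} [Fintype ι] [DecidableEq ι] (a : ι → ℕ) (x y : ι) (hxy : x ≠ y) (q : ℕ) :
    cnt Finset.univ a q = cnt ((Finset.univ.erase x).erase y) a q +
      (if q ∣ a x then 1 else 0) + (if q ∣ a y then 1 else 0) := by
  unfold cnt
  rw [Finset.card_filter, Finset.card_filter]
  have h1 := Finset.add_sum_erase (Finset.univ) (fun i => if q ∣ a i then 1 else 0)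
    (Finset.mem_univ x)
  have h2 := Finset.add_sum_erase (Finset.univ.erase x) (fun i => if q ∣ a i then 1 else 0)
    (show y ∈ Finset.univ.erase x by simp [hxy.symm])
  omega

theorem mono {ι : Type} (S : Finset ι) (a : ι → ℕ) {q h : ℕ} (hq : q ∣ h) :
    cnt S a h ≤ cnt S a q := by
  unfold cnt
  refine Finset.card_le_card fun i hi => ?_
  rw [Finset.mem_filter] at hi ⊢
  exact ⟨hi.1, hq.trans hi.2⟩

theorem dle (d₁ d₂ h : ℕ) : dl d₁ d₂ h ≤ 2 := by
  unfold dl
  split_ifs <;> omega

theorem dtwo {d₁ d₂ h : ℕ} (h2 : 2 ≤ dl d₁ d₂ h) : h ∣ d₂ := by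
  unfold dl at h2
  split_ifs at h2 with h3 h4 h4
  · exact h4
  all_goals omega

theorem main : SUM → B1 := by
  intro hSUM ι _ _ a d₁ d₂ ha hd1 hd2 hreg x y hxy hcop hx hy
  obtain ⟨S, hS⟩ : ∃ S : Finset ι, S = (Finset.univ.erase x).erase y := ⟨_, rfl⟩
  have hsplit : ∀ q, cnt Finset.univ a q = cnt S a q +
      (if q ∣ a x then 1 else 0) + (if q ∣ a y then 1 else 0) := by
    intro q
    rw [hS]
    exact split a x y hxy q
  have hax := ha x
  have hay := ha y
  have hmain : ∀ h, 1 < h → cnt S a h + dl (a x * a y) 1 h ≤ dl d₁ d₂ h := by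
    intro h hh
    have h1 : ¬ h ∣ 1 := by
      intro h1
      have := Nat.le_of_dvd one_pos h1
      omega
    by_cases hL : h ∣ a x * a y
    · have hd : h ∣ d₁ := hL.trans (hcop.mul_dvd_of_dvd_of_dvd hx hy)
      have e1 : dl (a x * a y) 1 h = 1 := by
        unfold dl
        rw [if_pos hL, if_neg h1]
      rw [e1]
      rcases Nat.eq_zero_or_pos (cnt S a h) with hm | hm
      · rw [hm]
        unfold dl
        rw [if_pos hd]
        omega
      · have key : ∀ u, 1 < u → u ∣ h → (u ∣ a x ∨ u ∣ a y) → u ∣ d₂ ∧ cnt S a h ≤ 1 := by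
          intro u hu huh hxy'
          have h2 := hreg u hu
          have h3 := hsplit u
          have h4 := dle d₁ d₂ u
          have h5 : 1 ≤ (if u ∣ a x then 1 else 0) + (if u ∣ a y then 1 else 0) := by
            rcases hxy' with h | h
            · rw [if_pos h]; omega
            · rw [if_pos h]; omega
          have h6 := mono S a huh
          exact ⟨dtwo (d₁ := d₁) (by omega), by omega⟩
        have e2 : Nat.gcd h (a x) * Nat.gcd h (a y) = h := by
          rw [← Nat.Coprime.gcd_mul h hcop]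
          exact Nat.gcd_eq_left hL
        have g1 : 0 < Nat.gcd h (a x) := Nat.gcd_pos_of_pos_left _ (by omega)
        have g2 : 0 < Nat.gcd h (a y) := Nat.gcd_pos_of_pos_left _ (by omega)
        have k1 : Nat.gcd h (a x) ∣ d₂ := by
          rcases Nat.lt_or_ge 1 (Nat.gcd h (a x)) with hg | hg
          · exact (key _ hg (Nat.gcd_dvd_left _ _) (Or.inl (Nat.gcd_dvd_right _ _))).1
          · have : Nat.gcd h (a x) = 1 := by omega
            rw [this]; exact one_dvd _
        have k2 : Nat.gcd h (a y) ∣ d₂ := by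
          rcases Nat.lt_or_ge 1 (Nat.gcd h (a y)) with hg | hg
          · exact (key _ hg (Nat.gcd_dvd_left _ _) (Or.inr (Nat.gcd_dvd_right _ _))).1
          · have : Nat.gcd h (a y) = 1 := by omega
            rw [this]; exact one_dvd _
        have k3 : cnt S a h ≤ 1 := by
          rcases Nat.lt_or_ge 1 (Nat.gcd h (a x)) with hg | hg
          · exact (key _ hg (Nat.gcd_dvd_left _ _) (Or.inl (Nat.gcd_dvd_right _ _))).2
          · rcases Nat.lt_or_ge 1 (Nat.gcd h (a y)) with hg' | hg'
            · exact (key _ hg' (Nat.gcd_dvd_left _ _) (Or.inr (Nat.gcd_dvd_right _ _))).2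
            · exfalso
              have h3 : Nat.gcd h (a x) = 1 := by omega
              have h4 : Nat.gcd h (a y) = 1 := by omega
              rw [h3, h4] at e2
              omega
        have hco : Nat.Coprime (Nat.gcd h (a x)) (Nat.gcd h (a y)) :=
          Nat.Coprime.coprime_dvd_left (Nat.gcd_dvd_right _ _)
            (Nat.Coprime.coprime_dvd_right (Nat.gcd_dvd_right _ _) hcop)
        have hd2' : h ∣ d₂ := by
          rw [← e2]
          exact hco.mul_dvd_of_dvd_of_dvd k1 k2
        unfold dl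
        rw [if_pos hd, if_pos hd2']
        omega
    · have e1 : dl (a x * a y) 1 h = 0 := by
        unfold dl
        rw [if_neg hL, if_neg h1]
      have h2 := hreg h hh
      have h3 := hsplit h
      omega
  have hfin := hSUM ι S a (fun i _ => ha i) (a x * a y) 1 d₁ d₂ (Nat.mul_pos hax hay) one_pos
    hd1 hd2 hmain
  have h1 := Finset.add_sum_erase (Finset.univ) (fun i => a i - 1) (Finset.mem_univ x)
  have h2 := Finset.add_sum_erase (Finset.univ.erase x) (fun i => a i - 1)
    (show y ∈ Finset.univ.erase x by simp [hxy.symm])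
  rw [← hS] at h2
  obtain ⟨p, hp⟩ : ∃ p, a x = p + 1 := ⟨a x - 1, by omega⟩
  obtain ⟨q, hq⟩ : ∃ q, a y = q + 1 := ⟨a y - 1, by omega⟩
  have e3 : a x * a y = p * q + p + q + 1 := by rw [hp, hq]; ring
  have e4 : (a x - 1) * (a y - 1) = p * q := by rw [hp, hq]; simp
  rw [e4]
  rw [e3] at hfin
  have e5 : a x - 1 = p := by omega
  have e6 : a y - 1 = q := by omega
  omega

end Pool.Agent.W736.FJ.B1
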